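import Mathlib

/-!
Five-vertex flag certificates for digraphs without directed cycles of length at most 3.
`core`: if every root triple gives a nonnegative sum and every labelled configuration on five
vertices has a negative symmetrised value, there is no such digraph.
-/

set_option autoImplicit false

namespace Pool.Agent.CH

/-- relation code of an ordered pair -/
def rel {V : Type*} (E : V → V → Prop) [DecidableRel E] (u v : V) : ℕ :=
  if E u v then 1 else if E v u then 2 else 0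

/-- code of the reversed pair -/
def inv (a : ℕ) : ℕ := if a = 1 then 2 else if a = 2 then 1 else 0

/-- no directed triangle: `a = r(i,j)`, `b = r(j,k)`, `c = r(i,k)` -/
def okT (a b c : ℕ) : Prop := ¬ (a = 1 ∧ b = 1 ∧ c = 2) ∧ ¬ (a = 2 ∧ b = 2 ∧ c = 1)

instance (a b c : ℕ) : Decidable (okT a b c) := by unfold okT; infer_instance

/-- the ten terms -/
def total (W : ℕ → ℕ → ℕ → ℕ → ℤ) (a01 a02 a12 a03 a13 a23 a04 a14 a24 a34 : ℕ) : ℤ :=
  W (a01 + 3 * a02 + 9 * a12) (a03 + 3 * a13 + 9 * a23) (a04 + 3 * a14 + 9 * a24) a34 +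
  W (a01 + 3 * a03 + 9 * a13) (a02 + 3 * a12 + 9 * inv a23) (a04 + 3 * a14 + 9 * a34) a24 +
  W (a02 + 3 * a03 + 9 * a23) (a01 + 3 * inv a12 + 9 * inv a13) (a04 + 3 * a24 + 9 * a34) a14 +
  W (a12 + 3 * a13 + 9 * a23) (inv a01 + 3 * inv a02 + 9 * inv a03)
    (a14 + 3 * a24 + 9 * a34) a04 +
  W (a01 + 3 * a04 + 9 * a14) (a02 + 3 * a12 + 9 * inv a24) (a03 + 3 * a13 + 9 * inv a34) a23 +
  W (a02 + 3 * a04 + 9 * a24) (a01 + 3 * inv a12 + 9 * inv a14)
    (a03 + 3 * a23 + 9 * inv a34) a13 +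
  W (a12 + 3 * a14 + 9 * a24) (inv a01 + 3 * inv a02 + 9 * inv a04)
    (a13 + 3 * a23 + 9 * inv a34) a03 +
  W (a03 + 3 * a04 + 9 * a34) (a01 + 3 * inv a13 + 9 * inv a14)
    (a02 + 3 * inv a23 + 9 * inv a24) a12 +
  W (a13 + 3 * a14 + 9 * a34) (inv a01 + 3 * inv a03 + 9 * inv a04)
    (a12 + 3 * inv a23 + 9 * inv a24) a02 +
  W (a23 + 3 * a24 + 9 * a34) (inv a02 + 3 * inv a03 + 9 * inv a04)
    (inv a12 + 3 * inv a13 + 9 * inv a14) a01

section Rel

variable {V : Type*} (E : V → V → Prop) [DecidableRel E]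

lemma rel_lt (u v : V) : rel E u v < 3 := by
  unfold rel; split_ifs <;> decide

lemma rel_inv (hE : ∀ u v, E u v → ¬ E v u) (u v : V) : rel E v u = inv (rel E u v) := by
  unfold rel inv
  by_cases h1 : E u v
  · have h2 := hE u v h1
    simp [h1, h2]
  · by_cases h2 : E v u <;> simp [h1, h2]

lemma rel_eq_one {u v : V} : rel E u v = 1 ↔ E u v := by
  unfold rel
  by_cases h1 : E u v
  · simp [h1]
  · by_cases h2 : E v u <;> simp [h1, h2]

lemma rel_eq_two (hE : ∀ u v, E u v → ¬ E v u) {u v : V} : rel E u v = 2 ↔ E v u := by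
  unfold rel
  by_cases h1 : E u v
  · have := hE u v h1
    simp [h1, this]
  · by_cases h2 : E v u <;> simp [h1, h2]

lemma rel_eq_zero {u v : V} : rel E u v = 0 ↔ ¬ E u v ∧ ¬ E v u := by
  unfold rel
  by_cases h1 : E u v
  · simp [h1]
  · by_cases h2 : E v u <;> simp [h1, h2]

lemma rel_okT (hE : ∀ u v, E u v → ¬ E v u)
    (h3 : ∀ u v w, E u v → E v w → ¬ E w u) (u v w : V) :
    okT (rel E u v) (rel E v w) (rel E u w) := by
  constructor
  · rintro ⟨h1, h2, h4⟩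
    rw [rel_eq_one] at h1 h2
    rw [rel_eq_two E hE] at h4
    exact h3 u v w h1 h2 h4
  · rintro ⟨h1, h2, h4⟩
    rw [rel_eq_two E hE] at h1 h2
    rw [rel_eq_one] at h4
    exact h3 w v u h2 h1 h4

end Rel

section Sum

variable {V : Type*} [Fintype V]

/-- five-fold product and functions -/
def e5 : (V × V × V × V × V) ≃ (Fin 5 → V) where
  toFun p := ![p.1, p.2.1, p.2.2.1, p.2.2.2.1, p.2.2.2.2]
  invFun x := (x 0, x 1, x 2, x 3, x 4)
  left_inv p := by rcases p with ⟨a, b, c, d, e⟩; rfl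
  right_inv x := by funext i; fin_cases i <;> rfl

lemma sum5 (g : V → V → V → V → V → ℤ) :
    ∑ x : Fin 5 → V, g (x 0) (x 1) (x 2) (x 3) (x 4) =
      ∑ a, ∑ b, ∑ c, ∑ d, ∑ e, g a b c d e := by
  rw [← Equiv.sum_comp (e5 (V := V))]
  simp only [Fintype.sum_prod_type]
  rfl

/-- invariance under a permutation of the coordinates given by two inverse maps -/
lemma sumPerm (s t : Fin 5 → Fin 5) (h1 : ∀ i, s (t i) = i) (h2 : ∀ i, t (s i) = i)
    (h : (Fin 5 → V) → ℤ) : ∑ x : Fin 5 → V, h (fun i => x (s i)) = ∑ x : Fin 5 → V, h x := by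
  let e : (Fin 5 → V) ≃ (Fin 5 → V) :=
    { toFun := fun x i => x (s i)
      invFun := fun x i => x (t i)
      left_inv := by intro x; funext i; simp [h1]
      right_inv := by intro x; funext i; simp [h2] }
  exact Equiv.sum_comp e h

end Sum

variable {V : Type*} [Fintype V]

/-- MAIN SOUNDNESS THEOREM. -/
theorem core [Nonempty V] (E : V → V → Prop) [DecidableRel E]
    (hE : ∀ u v, E u v → ¬ E v u) (h3 : ∀ u v w, E u v → E v w → ¬ E w u)
    (W : ℕ → ℕ → ℕ → ℕ → ℤ)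
    (hpos : ∀ x y z : V, 0 ≤ ∑ a : V, ∑ b : V,
      W (rel E x y + 3 * rel E x z + 9 * rel E y z)
        (rel E x a + 3 * rel E y a + 9 * rel E z a)
        (rel E x b + 3 * rel E y b + 9 * rel E z b) (rel E a b))
    (hneg : ∀ a01 a02 a12 a03 a13 a23 a04 a14 a24 a34 : ℕ,
      a01 < 3 → a02 < 3 → a12 < 3 → a03 < 3 → a13 < 3 → a23 < 3 → a04 < 3 → a14 < 3 →
      a24 < 3 → a34 < 3 →
      okT a01 a12 a02 → okT a01 a13 a03 → okT a02 a23 a03 → okT a12 a23 a13 →
      okT a01 a14 a04 → okT a02 a24 a04 → okT a12 a24 a14 →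
      okT a03 a34 a04 → okT a13 a34 a14 → okT a23 a34 a24 →
      total W a01 a02 a12 a03 a13 a23 a04 a14 a24 a34 < 0) : False := by
  classical
  -- the function of an ordered 5-tuple
  let w : V → V → V → V → V → ℤ := fun x y z a b =>
    W (rel E x y + 3 * rel E x z + 9 * rel E y z)
      (rel E x a + 3 * rel E y a + 9 * rel E z a)
      (rel E x b + 3 * rel E y b + 9 * rel E z b) (rel E a b)
  let h : (Fin 5 → V) → ℤ := fun x => w (x 0) (x 1) (x 2) (x 3) (x 4)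
  have hS : 0 ≤ ∑ x : Fin 5 → V, h x := by
    have := sum5 w
    show 0 ≤ ∑ x : Fin 5 → V, w (x 0) (x 1) (x 2) (x 3) (x 4)
    rw [this]
    exact Finset.sum_nonneg fun x _ => Finset.sum_nonneg fun y _ =>
      Finset.sum_nonneg fun z _ => hpos x y z
  have p1 := sumPerm (V := V) ![0, 1, 3, 2, 4] ![0, 1, 3, 2, 4] (by decide) (by decide) h
  have p2 := sumPerm (V := V) ![0, 2, 3, 1, 4] ![0, 3, 1, 2, 4] (by decide) (by decide) h
  have p3 := sumPerm (V := V) ![1, 2, 3, 0, 4] ![3, 0, 1, 2, 4] (by decide) (by decide) h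
  have p4 := sumPerm (V := V) ![0, 1, 4, 2, 3] ![0, 1, 3, 4, 2] (by decide) (by decide) h
  have p5 := sumPerm (V := V) ![0, 2, 4, 1, 3] ![0, 3, 1, 4, 2] (by decide) (by decide) h
  have p6 := sumPerm (V := V) ![1, 2, 4, 0, 3] ![3, 0, 1, 4, 2] (by decide) (by decide) h
  have p7 := sumPerm (V := V) ![0, 3, 4, 1, 2] ![0, 3, 4, 1, 2] (by decide) (by decide) h
  have p8 := sumPerm (V := V) ![1, 3, 4, 0, 2] ![3, 0, 4, 1, 2] (by decide) (by decide) h
  have p9 := sumPerm (V := V) ![2, 3, 4, 0, 1] ![3, 4, 0, 1, 2] (by decide) (by decide) h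
  have key : ∑ x : Fin 5 → V, (h x + h (fun i => x (![0, 1, 3, 2, 4] i)) +
      h (fun i => x (![0, 2, 3, 1, 4] i)) + h (fun i => x (![1, 2, 3, 0, 4] i)) +
      h (fun i => x (![0, 1, 4, 2, 3] i)) + h (fun i => x (![0, 2, 4, 1, 3] i)) +
      h (fun i => x (![1, 2, 4, 0, 3] i)) + h (fun i => x (![0, 3, 4, 1, 2] i)) +
      h (fun i => x (![1, 3, 4, 0, 2] i)) + h (fun i => x (![2, 3, 4, 0, 1] i))) =
      10 * ∑ x : Fin 5 → V, h x := by
    simp only [Finset.sum_add_distrib]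
    rw [p1, p2, p3, p4, p5, p6, p7, p8, p9]
    ring
  have hlt : ∑ x : Fin 5 → V, (h x + h (fun i => x (![0, 1, 3, 2, 4] i)) +
      h (fun i => x (![0, 2, 3, 1, 4] i)) + h (fun i => x (![1, 2, 3, 0, 4] i)) +
      h (fun i => x (![0, 1, 4, 2, 3] i)) + h (fun i => x (![0, 2, 4, 1, 3] i)) +
      h (fun i => x (![1, 2, 4, 0, 3] i)) + h (fun i => x (![0, 3, 4, 1, 2] i)) +
      h (fun i => x (![1, 3, 4, 0, 2] i)) + h (fun i => x (![2, 3, 4, 0, 1] i))) < 0 := by
    refine Finset.sum_neg (fun x _ => ?_) Finset.univ_nonempty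
    have ii := fun i j : Fin 5 => rel_inv E hE (x i) (x j)
    have ot := fun i j k : Fin 5 => rel_okT E hE h3 (x i) (x j) (x k)
    have lt := fun i j : Fin 5 => rel_lt E (x i) (x j)
    have H := hneg (rel E (x 0) (x 1)) (rel E (x 0) (x 2)) (rel E (x 1) (x 2))
      (rel E (x 0) (x 3)) (rel E (x 1) (x 3)) (rel E (x 2) (x 3))
      (rel E (x 0) (x 4)) (rel E (x 1) (x 4)) (rel E (x 2) (x 4)) (rel E (x 3) (x 4))
      (lt _ _) (lt _ _) (lt _ _) (lt _ _) (lt _ _) (lt _ _) (lt _ _) (lt _ _) (lt _ _) (lt _ _)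
      (ot 0 1 2) (ot 0 1 3) (ot 0 2 3) (ot 1 2 3) (ot 0 1 4) (ot 0 2 4) (ot 1 2 4)
      (ot 0 3 4) (ot 1 3 4) (ot 2 3 4)
    unfold total at H
    rw [← ii 2 3, ← ii 1 2, ← ii 1 3, ← ii 0 1, ← ii 0 2, ← ii 0 3, ← ii 2 4, ← ii 3 4,
      ← ii 1 4, ← ii 0 4] at H
    exact H
  rw [key] at hlt
  linarith

end Pool.Agent.CH
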