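import Pool.Agent.Helper93_CH.Pos

/-!
The heredity inequality for a minimal counterexample, and the induction.
-/

set_option autoImplicit false

namespace Pool.Agent.CH

theorem hered {V : Type*} [Fintype V] [DecidableEq V] (E : V → V → Prop) [DecidableRel E]
    (hE : ∀ u v, E u v → ¬ E v u) (h3 : ∀ u v w, E u v → E v w → ¬ E w u) (C D : ℕ)
    (hdeg : ∀ u : V, C * Fintype.card V ≤ D * (Finset.univ.filter (fun v => E u v)).card)
    (hmin : ∀ S : Finset V, S.Nonempty → S ≠ Finset.univ →
      ∃ w ∈ S, D * (S.filter (fun v => E w v)).card ≤ C * S.card) : Hered E C D := by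
  classical
  intro R z hz
  let N : Finset V := Finset.univ.filter (fun b => ∃ r ∈ R, E b r)
  let S : Finset V := Finset.univ.filter (fun b => ∀ r ∈ R, E r b)
  have hNc : Set.ncard {b | ∃ r ∈ R, E b r} = N.card := by
    rw [Set.ncard_eq_toFinset_card']
    congr 1
    ext b; simp [N]
  have hSc : Set.ncard {b | ∀ r ∈ R, E r b} = S.card := by
    rw [Set.ncard_eq_toFinset_card']
    congr 1
    ext b; simp [S]
  rw [hNc, hSc]
  rcases R.eq_empty_or_nonempty with hR | ⟨r0, hr0⟩
  · have h1 : N = ∅ := by
      ext b; simp [N, hR]
    have h2 : S = Finset.univ := by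
      ext b; simp [S, hR]
    rw [h1, h2]
    simp
  · have hNS : Disjoint N S := by
      rw [Finset.disjoint_left]
      intro b hb hb'
      simp only [N, S, Finset.mem_filter, Finset.mem_univ, true_and] at hb hb'
      obtain ⟨r, hr, hbr⟩ := hb
      exact hE _ _ hbr (hb' r hr)
    have hNSc : N.card + S.card ≤ Fintype.card V := by
      rw [← Finset.card_union_of_disjoint hNS]
      exact Finset.card_le_univ _
    have hbound : ∀ w : V, (∀ b, E w b → b ∉ N) →
        ((Finset.univ.filter (fun v => E w v)).card : ℤ) ≤
          ((S.filter (fun v => E w v)).card : ℤ) + ((Fintype.card V : ℤ) - N.card - S.card) := by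
      intro w hw
      have hsub : Finset.univ.filter (fun v => E w v) ⊆
          (S.filter (fun v => E w v)) ∪ (Finset.univ \ (N ∪ S)) := by
        intro b hb
        simp only [Finset.mem_filter, Finset.mem_univ, true_and] at hb
        simp only [Finset.mem_union, Finset.mem_filter, Finset.mem_sdiff, Finset.mem_univ,
          true_and, not_or]
        by_cases hbS : b ∈ S
        · exact Or.inl ⟨hbS, hb⟩
        · exact Or.inr ⟨hw b hb, hbS⟩
      have h1 := Finset.card_le_card hsub
      have h2 := Finset.card_union_le (S.filter (fun v => E w v)) (Finset.univ \ (N ∪ S))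
      have h4 : (Finset.univ \ (N ∪ S)).card = Fintype.card V - (N.card + S.card) := by
        rw [Finset.card_sdiff_of_subset (Finset.subset_univ _),
          Finset.card_union_of_disjoint hNS, Finset.card_univ]
      have h5 : (Finset.univ.filter (fun v => E w v)).card ≤
          (S.filter (fun v => E w v)).card + (Fintype.card V - (N.card + S.card)) := by omega
      have h6 : ((Fintype.card V - (N.card + S.card) : ℕ) : ℤ) =
          (Fintype.card V : ℤ) - (N.card + S.card) := by
        rw [Nat.cast_sub hNSc]; push_cast; ring
      have h7 : ((Finset.univ.filter (fun v => E w v)).card : ℤ) ≤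
          ((S.filter (fun v => E w v)).card : ℤ) +
            ((Fintype.card V - (N.card + S.card) : ℕ) : ℤ) := by exact_mod_cast h5
      rw [h6] at h7
      linarith
    rcases S.eq_empty_or_nonempty with hS | hS
    · have hzN : ∀ b, E z b → b ∉ N := by
        intro b hb hbN
        simp only [N, Finset.mem_filter, Finset.mem_univ, true_and] at hbN
        obtain ⟨r, hr, hbr⟩ := hbN
        rcases hz r hr with rfl | hrz
        · exact hE _ _ hb hbr
        · exact h3 r z b hrz hb hbr
      have hb := hbound z hzN
      rw [hS] at hb ⊢
      simp only [Finset.filter_empty, Finset.card_empty, Nat.cast_zero] at hb ⊢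
      have hd : (C : ℤ) * (Fintype.card V : ℤ) ≤
          (D : ℤ) * ((Finset.univ.filter (fun v => E z v)).card : ℤ) := by
        exact_mod_cast hdeg z
      have hD : (0 : ℤ) ≤ D := by positivity
      nlinarith
    · have hne : S ≠ Finset.univ := by
        intro h
        have : r0 ∈ S := by rw [h]; exact Finset.mem_univ _
        simp only [S, Finset.mem_filter, Finset.mem_univ, true_and] at this
        have := this r0 hr0
        exact hE _ _ this this
      obtain ⟨w, hwS, hw⟩ := hmin S hS hne
      have hwR : ∀ r ∈ R, E r w := by
        simpa [S] using hwS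
      have hwN : ∀ b, E w b → b ∉ N := by
        intro b hb hbN
        simp only [N, Finset.mem_filter, Finset.mem_univ, true_and] at hbN
        obtain ⟨r, hr, hbr⟩ := hbN
        exact h3 r w b (hwR r hr) hb hbr
      have hb := hbound w hwN
      have hd : (C : ℤ) * (Fintype.card V : ℤ) ≤
          (D : ℤ) * ((Finset.univ.filter (fun v => E w v)).card : ℤ) := by
        exact_mod_cast hdeg w
      have hw' : (D : ℤ) * ((S.filter (fun v => E w v)).card : ℤ) ≤ (C : ℤ) * (S.card : ℤ) := by
        exact_mod_cast hw
      have hD : (0 : ℤ) ≤ D := by positivity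
      nlinarith

/-- the induction over the number of vertices -/
theorem induct (C D : ℕ)
    (hstep : ∀ (V : Type) [Fintype V] [DecidableEq V] [Nonempty V] (E : V → V → Prop)
      [DecidableRel E], (∀ u v, E u v → ¬ E v u) → (∀ u v w, E u v → E v w → ¬ E w u) →
      (∀ u : V, C * Fintype.card V ≤ D * (Finset.univ.filter (fun v => E u v)).card) →
      Hered E C D → False) :
    ∀ (n : ℕ) (V : Type) [Fintype V] [DecidableEq V] [Nonempty V] (E : V → V → Prop)
      [DecidableRel E], Fintype.card V = n → (∀ u v, E u v → ¬ E v u) →
      (∀ u v w, E u v → E v w → ¬ E w u) →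
      ∃ u : V, D * (Finset.univ.filter (fun v => E u v)).card < C * Fintype.card V := by
  intro n
  induction n using Nat.strong_induction_on with
  | _ n ih =>
    intro V _ _ _ E _ hn hE h3
    by_contra hcon
    push Not at hcon
    refine hstep V E hE h3 hcon (hered E hE h3 C D hcon ?_)
    intro S hS hSne
    have hlt : S.card < n := by
      rw [← hn, ← Finset.card_univ]
      exact Finset.card_lt_card (Finset.ssubset_univ_iff.2 hSne)
    have : Nonempty {x // x ∈ S} := ⟨⟨hS.choose, hS.choose_spec⟩⟩
    obtain ⟨u, hu⟩ := ih S.card hlt {x // x ∈ S} (fun a b => E a.1 b.1)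
      (by simp) (fun a b h => hE _ _ h) (fun a b c h1 h2 => h3 _ _ _ h1 h2)
    refine ⟨u.1, u.2, ?_⟩
    have e1 : (Finset.univ.filter (fun v : {x // x ∈ S} => E u.1 v.1)).card =
        (S.filter (fun v => E u.1 v)).card := by
      rw [← Finset.card_map (Function.Embedding.subtype (fun x => x ∈ S))]
      congr 1
      ext b
      simp only [Finset.mem_map, Finset.mem_filter, Finset.mem_univ, true_and,
        Function.Embedding.coe_subtype, Subtype.exists, exists_and_left, exists_prop,
        exists_eq_right_right]
      tauto
    have e2 : Fintype.card {x // x ∈ S} = S.card := by simp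
    rw [e2, e1] at hu
    exact le_of_lt hu

end Pool.Agent.CH
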