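import Pool.Agent.Helper93_CH.Motz
import Pool.Agent.Helper93_CH.Hered

/-!
From certificate data to theorems about digraphs.
-/

set_option autoImplicit false

namespace Pool.Agent.CH

lemma code_lt (a b c : ℕ) (ha : a < 3) (hb : b < 3) (hc : c < 3) : a + 3 * b + 9 * c < 27 := by
  omega

/-- symmetrised version of `pos` -/
theorem pos2 {V : Type*} [Fintype V] [DecidableEq V] (E : V → V → Prop) [DecidableRel E]
    (hE : ∀ u v, E u v → ¬ E v u) (C D k : ℕ)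
    (hdeg : ∀ u : V, C * Fintype.card V ≤ D * (Finset.univ.filter (fun v => E u v)).card)
    (x y z : V) (L : List (ℕ → ℤ)) (m : ℕ → ℕ → ℕ) (lh : ℕ → List (ℕ × ℕ × ℕ))
    (tu : List (ℕ × (ℕ → ℕ)))
    (hlh : ∀ a : V, ∀ q ∈ lh (rel E x a + 3 * rel E y a + 9 * rel E z a), Hered E C D ∧
      okz (rel E x y + 3 * rel E x z + 9 * rel E y z)
        (rel E x a + 3 * rel E y a + 9 * rel E z a) q.1 q.2.1)
    (htu : ∀ q ∈ tu, Motz E k ∧
      (∀ T : Finset V, (∀ a ∈ T, ∀ b ∈ T, a ≠ b → E a b ∨ E b a) → T.card ≤ k + 3) ∧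
      (rel E x y ≠ 0 ∧ rel E x z ≠ 0 ∧ rel E y z ≠ 0) ∧
      ∀ f, 0 < q.2 f → f % 3 ≠ 0 ∧ f / 3 % 3 ≠ 0 ∧ f / 9 ≠ 0)
    (W : ℕ → ℕ → ℕ → ℤ)
    (hW : ∀ f g r, f < 27 → g < 27 → r < 3 →
      Wval C D k L m lh tu f g r + Wval C D k L m lh tu g f (inv r) ≤ W f g r) :
    0 ≤ ∑ a : V, ∑ b : V, W (rel E x a + 3 * rel E y a + 9 * rel E z a)
      (rel E x b + 3 * rel E y b + 9 * rel E z b) (rel E a b) := by
  have h1 := pos E hE C D k hdeg x y z L m lh tu hlh htu (Wval C D k L m lh tu)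
    (fun a b => le_refl _)
  have h2 : ∑ a : V, ∑ b : V, Wval C D k L m lh tu
      (rel E x b + 3 * rel E y b + 9 * rel E z b)
      (rel E x a + 3 * rel E y a + 9 * rel E z a) (rel E b a) =
      ∑ a : V, ∑ b : V, Wval C D k L m lh tu
      (rel E x a + 3 * rel E y a + 9 * rel E z a)
      (rel E x b + 3 * rel E y b + 9 * rel E z b) (rel E a b) := Finset.sum_comm
  have h3 : ∑ a : V, ∑ b : V, (Wval C D k L m lh tu
      (rel E x a + 3 * rel E y a + 9 * rel E z a)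
      (rel E x b + 3 * rel E y b + 9 * rel E z b) (rel E a b) + Wval C D k L m lh tu
      (rel E x b + 3 * rel E y b + 9 * rel E z b)
      (rel E x a + 3 * rel E y a + 9 * rel E z a) (rel E b a)) ≤
      ∑ a : V, ∑ b : V, W (rel E x a + 3 * rel E y a + 9 * rel E z a)
      (rel E x b + 3 * rel E y b + 9 * rel E z b) (rel E a b) := by
    refine Finset.sum_le_sum (fun a _ => Finset.sum_le_sum (fun b _ => ?_))
    rw [rel_inv E hE a b]
    exact hW _ _ _ (code_lt _ _ _ (rel_lt E x a) (rel_lt E y a) (rel_lt E z a))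
      (code_lt _ _ _ (rel_lt E x b) (rel_lt E y b) (rel_lt E z b)) (rel_lt E a b)
  simp only [Finset.sum_add_distrib] at h3
  rw [h2] at h3
  linarith

/-- facts about the table needed from the kernel: the ten-term total is negative -/
def Neg (W : ℕ → ℕ → ℕ → ℕ → ℤ) : Prop :=
  ∀ a01 a02 a12 a03 a13 a23 a04 a14 a24 a34 : ℕ,
      a01 < 3 → a02 < 3 → a12 < 3 → a03 < 3 → a13 < 3 → a23 < 3 → a04 < 3 → a14 < 3 →
      a24 < 3 → a34 < 3 →
      okT a01 a12 a02 → okT a01 a13 a03 → okT a02 a23 a03 → okT a12 a23 a13 →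
      okT a01 a14 a04 → okT a02 a24 a04 → okT a12 a24 a14 →
      okT a03 a34 a04 → okT a13 a34 a14 → okT a23 a34 a24 →
      total W a01 a02 a12 a03 a13 a23 a04 a14 a24 a34 < 0

/-- certificate without heredity rows: digraphs whose underlying graph has no clique of more
than `k + 3` vertices -/
theorem clique_of_cert (C D k : ℕ) (L : ℕ → List (ℕ → ℤ)) (m : ℕ → ℕ → ℕ → ℕ)
    (tu : ℕ → List (ℕ × (ℕ → ℕ))) (W : ℕ → ℕ → ℕ → ℕ → ℤ)
    (F1 : ∀ t f g r, t < 27 → f < 27 → g < 27 → r < 3 →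
      Wval C D k (L t) (m t) (fun _ => []) (tu t) f g r +
        Wval C D k (L t) (m t) (fun _ => []) (tu t) g f (inv r) ≤ W t f g r)
    (F2 : Neg W)
    (F3 : ∀ t, t < 27 → ∀ q ∈ tu t, (t % 3 ≠ 0 ∧ t / 3 % 3 ≠ 0 ∧ t / 9 ≠ 0) ∧
      ∀ f, 0 < q.2 f → f % 3 ≠ 0 ∧ f / 3 % 3 ≠ 0 ∧ f / 9 ≠ 0)
    {V : Type*} [Fintype V] [DecidableEq V] [Nonempty V] (E : V → V → Prop) [DecidableRel E]
    (hE : ∀ u v, E u v → ¬ E v u) (h3 : ∀ u v w, E u v → E v w → ¬ E w u)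
    (hcl : ∀ T : Finset V, (∀ a ∈ T, ∀ b ∈ T, a ≠ b → E a b ∨ E b a) → T.card ≤ k + 3) :
    ∃ u : V, D * (Finset.univ.filter (fun v => E u v)).card < C * Fintype.card V := by
  by_contra hcon
  push Not at hcon
  refine core E hE h3 W (fun x y z => ?_) F2
  have ht : rel E x y + 3 * rel E x z + 9 * rel E y z < 27 :=
    code_lt _ _ _ (rel_lt E x y) (rel_lt E x z) (rel_lt E y z)
  refine pos2 E hE C D k hcon x y z (L (rel E x y + 3 * rel E x z + 9 * rel E y z))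
    (m (rel E x y + 3 * rel E x z + 9 * rel E y z)) (fun _ => [])
    (tu (rel E x y + 3 * rel E x z + 9 * rel E y z)) ?_ ?_ _ (fun f g r hf hg hr =>
      F1 _ f g r ht hf hg hr)
  · intro a q hq
    simp at hq
  · intro q hq
    obtain ⟨g1, g2⟩ := F3 _ ht q hq
    refine ⟨motz E hE k, hcl, ?_, g2⟩
    rw [dig0 _ _ _ (rel_lt E x y), dig1 _ _ _ (rel_lt E x y) (rel_lt E x z),
      dig2 _ _ _ (rel_lt E x y) (rel_lt E x z)] at g1
    exact g1

/-- certificate with heredity rows: all digraphs -/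
theorem all_of_cert (C D : ℕ) (L : ℕ → List (ℕ → ℤ)) (m : ℕ → ℕ → ℕ → ℕ)
    (lh : ℕ → ℕ → List (ℕ × ℕ × ℕ)) (W : ℕ → ℕ → ℕ → ℕ → ℤ)
    (F1 : ∀ t f g r, t < 27 → f < 27 → g < 27 → r < 3 →
      Wval C D 0 (L t) (m t) (lh t) [] f g r +
        Wval C D 0 (L t) (m t) (lh t) [] g f (inv r) ≤ W t f g r)
    (F2 : Neg W)
    (F4 : ∀ t f, t < 27 → f < 27 → ∀ q ∈ lh t f, okz t f q.1 q.2.1)
    (V : Type) [Fintype V] [DecidableEq V] [Nonempty V] (E : V → V → Prop) [DecidableRel E]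
    (hE : ∀ u v, E u v → ¬ E v u) (h3 : ∀ u v w, E u v → E v w → ¬ E w u) :
    ∃ u : V, D * (Finset.univ.filter (fun v => E u v)).card < C * Fintype.card V := by
  refine induct C D ?_ (Fintype.card V) V E rfl hE h3
  intro V _ _ _ E _ hE h3 hdeg hH
  refine core E hE h3 W (fun x y z => ?_) F2
  have ht : rel E x y + 3 * rel E x z + 9 * rel E y z < 27 :=
    code_lt _ _ _ (rel_lt E x y) (rel_lt E x z) (rel_lt E y z)
  refine pos2 E hE C D 0 hdeg x y z (L (rel E x y + 3 * rel E x z + 9 * rel E y z))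
    (m (rel E x y + 3 * rel E x z + 9 * rel E y z))
    (lh (rel E x y + 3 * rel E x z + 9 * rel E y z)) [] ?_ ?_ _ (fun f g r hf hg hr =>
      F1 _ f g r ht hf hg hr)
  · intro a q hq
    exact ⟨hH, F4 _ _ ht (code_lt _ _ _ (rel_lt E x a) (rel_lt E y a) (rel_lt E z a)) q hq⟩
  · intro q hq
    simp at hq

end Pool.Agent.CH
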