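import Pool.Agent.Helper93_CH.Pos

/-!
Weighted Turan inequality (Motzkin and Straus) for ordered pairs.
-/

set_option autoImplicit false

namespace Pool.Agent.CH

section

variable {V : Type*} [Fintype V] (r : V → V → Prop) [DecidableRel r]

/-- adjacency form -/
def AD (x y : V → ℤ) : ℤ := ∑ a, ∑ b, if r a b then x a * y b else 0

lemma AD_add_left (x y z : V → ℤ) : AD r (x + y) z = AD r x z + AD r y z := by
  unfold AD
  rw [← Finset.sum_add_distrib]
  refine Finset.sum_congr rfl (fun a _ => ?_)
  rw [← Finset.sum_add_distrib]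
  refine Finset.sum_congr rfl (fun b _ => ?_)
  split_ifs
  · simp only [Pi.add_apply]; ring
  · simp

lemma AD_comm (hs : ∀ a b, r a b → r b a) (x y : V → ℤ) : AD r x y = AD r y x := by
  unfold AD
  rw [Finset.sum_comm]
  refine Finset.sum_congr rfl (fun a _ => ?_)
  refine Finset.sum_congr rfl (fun b _ => ?_)
  by_cases h : r a b
  · rw [if_pos h, if_pos (hs _ _ h), mul_comm]
  · rw [if_neg h, if_neg (fun h' => h (hs _ _ h'))]

lemma AD_add_right (hs : ∀ a b, r a b → r b a) (x y z : V → ℤ) :
    AD r x (y + z) = AD r x y + AD r x z := by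
  rw [AD_comm r hs, AD_add_left, AD_comm r hs y x, AD_comm r hs z x]

lemma NA_eq (w : V → ℤ) : ∑ a, ∑ b, (if r a b then 0 else w a * w b) =
    (∑ a, w a) ^ 2 - AD r w w := by
  unfold AD
  rw [sq, Finset.sum_mul_sum, ← Finset.sum_sub_distrib]
  refine Finset.sum_congr rfl (fun a _ => ?_)
  rw [← Finset.sum_sub_distrib]
  refine Finset.sum_congr rfl (fun b _ => ?_)
  split_ifs <;> ring

theorem motz_aux (hs : ∀ a b, r a b → r b a) (hi : ∀ a, ¬ r a a) :
    ∀ (k : ℕ) (w : V → ℤ), (∀ a, 0 ≤ w a) →
      (∀ T : Finset V, (∀ a ∈ T, 0 < w a) → (∀ a ∈ T, ∀ b ∈ T, a ≠ b → r a b) → T.card ≤ k) →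
      (∑ a, w a) ^ 2 ≤ (k : ℤ) * ∑ a, ∑ b, (if r a b then 0 else w a * w b) := by
  classical
  intro k
  induction k with
  | zero =>
    intro w hw hc
    have h0 : ∀ a, w a = 0 := by
      intro a
      by_contra h
      have hpos : 0 < w a := lt_of_le_of_ne (hw a) (Ne.symm h)
      have := hc {a} (by simpa using hpos) (by simp)
      simp at this
    simp [h0]
  | succ k ih =>
    intro w hw hc
    by_cases hsupp : ∃ a, 0 < w a
    swap
    · push Not at hsupp
      have h0 : ∀ a, w a = 0 := fun a => le_antisymm (hsupp a) (hw a)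
      simp [h0]
    -- a vertex of the support of maximal weighted degree
    obtain ⟨a0, ha0⟩ := hsupp
    let S : Finset V := Finset.univ.filter (fun a => 0 < w a)
    have hSne : S.Nonempty := ⟨a0, by simp [S, ha0]⟩
    obtain ⟨v, hvS, hvmax⟩ := Finset.exists_max_image S
      (fun a => ∑ b, if r a b then w b else 0) hSne
    have hv : 0 < w v := by simpa [S] using hvS
    let w' : V → ℤ := fun b => if r v b then w b else 0
    let u : V → ℤ := fun b => if r v b then 0 else w b
    have hwu : w = w' + u := by
      funext b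
      simp only [w', u, Pi.add_apply]
      split_ifs <;> simp
    have hw' : ∀ b, 0 ≤ w' b := by
      intro b; simp only [w']; split_ifs
      · exact hw b
      · exact le_refl _
    have hu : ∀ b, 0 ≤ u b := by
      intro b; simp only [u]; split_ifs
      · exact le_refl _
      · exact hw b
    have hIH := ih w' hw' (by
      intro T hT hTT
      have hvT : v ∉ T := by
        intro h
        have := hT v h
        simp only [w'] at this
        rw [if_neg (hi v)] at this
        exact lt_irrefl _ this
      have hrv : ∀ a ∈ T, r v a ∧ 0 < w a := by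
        intro a ha
        have := hT a ha
        simp only [w'] at this
        by_cases h : r v a
        · rw [if_pos h] at this; exact ⟨h, this⟩
        · rw [if_neg h] at this; exact absurd this (lt_irrefl _)
      have := hc (insert v T) (by
        intro a ha
        rcases Finset.mem_insert.1 ha with rfl | ha
        · exact hv
        · exact (hrv a ha).2) (by
        intro a ha b hb hab
        rcases Finset.mem_insert.1 ha with ha' | ha' <;>
          rcases Finset.mem_insert.1 hb with hb' | hb'
        · exact absurd (ha'.trans hb'.symm) hab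
        · rw [ha']; exact (hrv b hb').1
        · rw [hb']; exact hs _ _ (hrv a ha').1
        · exact hTT a ha' b hb' hab)
      rw [Finset.card_insert_of_notMem hvT] at this
      omega)
    rw [NA_eq] at hIH ⊢
    -- the degree bound
    have hdeg : AD r u w ≤ (∑ a, u a) * (∑ b, w' b) := by
      unfold AD
      rw [Finset.sum_mul]
      refine Finset.sum_le_sum (fun a _ => ?_)
      have e : ∑ b, (if r a b then u a * w b else 0) = u a * ∑ b, (if r a b then w b else 0) := by
        rw [Finset.mul_sum]
        refine Finset.sum_congr rfl (fun b _ => ?_)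
        split_ifs <;> simp
      rw [e]
      by_cases ha : 0 < w a
      · have := hvmax a (by simp [S, ha])
        exact mul_le_mul_of_nonneg_left this (hu a)
      · have h0 : w a = 0 := le_antisymm (not_lt.1 ha) (hw a)
        have : u a = 0 := by simp only [u]; split_ifs <;> simp [h0]
        simp [this]
    have huu : 0 ≤ AD r u u := by
      unfold AD
      refine Finset.sum_nonneg (fun a _ => Finset.sum_nonneg (fun b _ => ?_))
      split_ifs
      · exact mul_nonneg (hu a) (hu b)
      · exact le_refl _
    have e1 : AD r w w = AD r w' w' + 2 * AD r u w' + AD r u u := by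
      conv_lhs => rw [hwu]
      rw [AD_add_left, AD_add_right r hs, AD_add_right r hs, AD_comm r hs w' u]
      ring
    have e2 : AD r u w = AD r u w' + AD r u u := by
      conv_lhs => rw [hwu]
      rw [AD_add_right r hs]
    have e3 : ∑ a, w a = ∑ a, w' a + ∑ a, u a := by
      conv_lhs => rw [hwu]
      simp [Finset.sum_add_distrib]
    generalize hB : ∑ a, u a = B at *
    generalize hd : ∑ a, w' a = d at *
    generalize hX : AD r w' w' = X at *
    generalize hY : AD r u w' = Y at *
    generalize hZ : AD r u u = Z at *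
    rw [e3, e1]
    rw [e2] at hdeg
    have hkey : B ^ 2 + (d ^ 2 - X) ≤ (d + B) ^ 2 - (X + 2 * Y + Z) := by nlinarith
    have hd0 : 0 ≤ d := by rw [← hd]; exact Finset.sum_nonneg (fun b _ => hw' b)
    have hB0 : 0 ≤ B := by rw [← hB]; exact Finset.sum_nonneg (fun b _ => hu b)
    have hk0 : (0 : ℤ) ≤ (k : ℤ) := by positivity
    have hgoal : (d + B) ^ 2 ≤ ((k : ℤ) + 1) * (B ^ 2 + (d ^ 2 - X)) := by
      rcases Nat.eq_zero_or_pos k with hk | hk
      · subst hk
        have hd' : d = 0 := by
          have : d ^ 2 ≤ 0 := by simpa using hIH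
          nlinarith
        have hX0 : X ≤ d ^ 2 := by
          rw [← hX, ← hd, sq, Finset.sum_mul_sum]
          unfold AD
          refine Finset.sum_le_sum (fun a _ => Finset.sum_le_sum (fun b _ => ?_))
          split_ifs
          · exact le_refl _
          · exact mul_nonneg (hw' a) (hw' b)
        subst hd'
        simp only [Nat.cast_zero]
        nlinarith
      · have hk1 : (1 : ℤ) ≤ (k : ℤ) := by exact_mod_cast hk
        have h1 : (k : ℤ) * (d + B) ^ 2 ≤ (k : ℤ) * (((k : ℤ) + 1) * (B ^ 2 + (d ^ 2 - X))) := by
          have h2 : (k : ℤ) * (d ^ 2 - X) * ((k : ℤ) + 1) ≥ d ^ 2 * ((k : ℤ) + 1) := by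
            have : (0 : ℤ) ≤ (k : ℤ) + 1 := by linarith
            exact mul_le_mul_of_nonneg_right hIH this
          nlinarith [sq_nonneg ((k : ℤ) * B - d)]
        exact le_of_mul_le_mul_left h1 (by linarith)
    push_cast
    calc (d + B) ^ 2 ≤ ((k : ℤ) + 1) * (B ^ 2 + (d ^ 2 - X)) := hgoal
      _ ≤ ((k : ℤ) + 1) * ((d + B) ^ 2 - (X + 2 * Y + Z)) :=
        mul_le_mul_of_nonneg_left hkey (by linarith)

end

theorem motz {V : Type*} [Fintype V] (E : V → V → Prop) [DecidableRel E]
    (hE : ∀ u v, E u v → ¬ E v u) (k : ℕ) : Motz E k := by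
  intro w hc
  exact motz_aux (fun a b => E a b ∨ E b a) (fun a b h => h.symm)
    (fun a h => by rcases h with h | h <;> exact hE a a h h) k (fun a => (w a : ℤ))
    (fun a => by positivity)
    (fun T h1 h2 => hc T (fun a ha => by exact_mod_cast h1 a ha) h2)

end Pool.Agent.CH
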