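import Pool.Agent.Helper93_CH.Core

/-!
Nonnegativity of the root sums: squares, outdegree rows, heredity rows, Turan rows.
-/

set_option autoImplicit false

namespace Pool.Agent.CH

/-- indicator of the code `1` -/
def bit1 (a : ℕ) : ℤ := if a = 1 then 1 else 0

/-- sum of products of a list of vectors -/
def sqV (L : List (ℕ → ℤ)) (f g : ℕ) : ℤ := (L.map (fun l => l f * l g)).sum

/-- outdegree rows with multipliers `m 0, m 1, m 2` (roots) and `m 3` (the vertex `a`) -/
def degV (C D : ℤ) (m : ℕ → ℕ) (g r : ℕ) : ℤ :=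
  m 0 * (D * bit1 (g % 3) - C) + m 1 * (D * bit1 (g / 3 % 3) - C) +
    m 2 * (D * bit1 (g / 9) - C) + m 3 * (D * bit1 r - C)

/-- `b` is an in-neighbour of one of the roots of the mask -/
def inN (mask g r : ℕ) : Prop :=
  (mask % 2 = 1 ∧ g % 3 = 2) ∨ (mask / 2 % 2 = 1 ∧ g / 3 % 3 = 2) ∨
    (mask / 4 % 2 = 1 ∧ g / 9 = 2) ∨ (mask / 8 % 2 = 1 ∧ r = 2)

instance (mask g r : ℕ) : Decidable (inN mask g r) := by unfold inN; infer_instance

/-- `b` is a common out-neighbour of the roots of the mask -/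
def inS (mask g r : ℕ) : Prop :=
  (mask % 2 = 1 → g % 3 = 1) ∧ (mask / 2 % 2 = 1 → g / 3 % 3 = 1) ∧
    (mask / 4 % 2 = 1 → g / 9 = 1) ∧ (mask / 8 % 2 = 1 → r = 1)

instance (mask g r : ℕ) : Decidable (inS mask g r) := by unfold inS; infer_instance

/-- heredity row -/
def lhV (C D : ℤ) (mask g r : ℕ) : ℤ :=
  (D - C) - (if inN mask g r then D else 0) - (if inS mask g r then D - C else 0)

/-- relation code of the ordered pair of root indices `i z`, from the type code `t` and the
profile `f` of the fourth root -/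
def rc (t f i z : ℕ) : ℕ :=
  if i = 0 then (if z = 1 then t % 3 else if z = 2 then t / 3 % 3 else
      if z = 3 then f % 3 else 0)
  else if i = 1 then (if z = 0 then inv (t % 3) else if z = 2 then t / 9 else
      if z = 3 then f / 3 % 3 else 0)
  else if i = 2 then (if z = 0 then inv (t / 3 % 3) else if z = 1 then inv (t / 9) else
      if z = 3 then f / 9 else 0)
  else if i = 3 then (if z = 0 then inv (f % 3) else if z = 1 then inv (f / 3 % 3) else
      if z = 2 then inv (f / 9) else 0)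
  else 0

/-- the mask is dominated by the root `z`: every root of the mask is `z` or has an edge to `z` -/
def okz (t f mask z : ℕ) : Prop :=
  z < 4 ∧ (mask % 2 = 1 → 0 = z ∨ rc t f 0 z = 1) ∧ (mask / 2 % 2 = 1 → 1 = z ∨ rc t f 1 z = 1) ∧
    (mask / 4 % 2 = 1 → 2 = z ∨ rc t f 2 z = 1) ∧ (mask / 8 % 2 = 1 → 3 = z ∨ rc t f 3 z = 1)

instance (t f mask z : ℕ) : Decidable (okz t f mask z) := by unfold okz; infer_instance

/-- Turan row -/
def tuV (k : ℤ) (w : ℕ → ℕ) (f g r : ℕ) : ℤ :=
  (w f : ℤ) * (w g : ℤ) * (k * (if r = 0 then 1 else 0) - 1)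

/-- value of the certificate for a fixed type -/
def Wval (C D k : ℤ) (L : List (ℕ → ℤ)) (m : ℕ → ℕ → ℕ) (lh : ℕ → List (ℕ × ℕ × ℕ))
    (tu : List (ℕ × (ℕ → ℕ))) (f g r : ℕ) : ℤ :=
  sqV L f g + degV C D (m f) g r +
    ((lh f).map (fun q => (q.2.2 : ℤ) * lhV C D q.1 g r)).sum +
    (tu.map (fun q => (q.1 : ℤ) * tuV k q.2 f g r)).sum

section

variable {V : Type*} [Fintype V]

lemma sum_list_nonneg {α : Type*} (l : List α) (F : α → V → V → ℤ)
    (h : ∀ q ∈ l, 0 ≤ ∑ a, ∑ b, F q a b) :
    0 ≤ ∑ a, ∑ b, (l.map (fun q => F q a b)).sum := by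
  induction l with
  | nil => simp
  | cons q l ih =>
    simp only [List.map_cons, List.sum_cons, Finset.sum_add_distrib]
    have h1 := h q (by simp)
    have h2 := ih (fun q hq => h q (by simp [hq]))
    linarith

lemma sq_nonneg' (L : List (ℕ → ℤ)) (f : V → ℕ) :
    0 ≤ ∑ a, ∑ b, sqV L (f a) (f b) := by
  unfold sqV
  refine sum_list_nonneg L (fun l a b => l (f a) * l (f b)) (fun l _ => ?_)
  have : ∑ a, ∑ b, l (f a) * l (f b) = (∑ a, l (f a)) ^ 2 := by
    rw [sq, Finset.sum_mul_sum]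
  rw [this]
  positivity

lemma dig0 (a b c : ℕ) (ha : a < 3) : (a + 3 * b + 9 * c) % 3 = a := by omega
lemma dig1 (a b c : ℕ) (ha : a < 3) (hb : b < 3) : (a + 3 * b + 9 * c) / 3 % 3 = b := by omega
lemma dig2 (a b c : ℕ) (ha : a < 3) (hb : b < 3) : (a + 3 * b + 9 * c) / 9 = c := by omega

variable (E : V → V → Prop) [DecidableRel E]

lemma sum_bit1 (u : V) : ∑ b, bit1 (rel E u b) =
    ((Finset.univ.filter (fun b => E u b)).card : ℤ) := by
  unfold bit1
  rw [Finset.card_filter]
  push_cast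
  refine Finset.sum_congr rfl (fun b _ => ?_)
  by_cases h : E u b
  · rw [if_pos ((rel_eq_one E).2 h), if_pos h]
  · rw [if_neg (fun h' => h ((rel_eq_one E).1 h')), if_neg h]

lemma deg_row_nonneg (C D : ℕ)
    (hdeg : ∀ u : V, C * Fintype.card V ≤ D * (Finset.univ.filter (fun v => E u v)).card)
    (m : ℕ) (u : V) : 0 ≤ ∑ b, (m : ℤ) * ((D : ℤ) * bit1 (rel E u b) - (C : ℤ)) := by
  rw [← Finset.mul_sum, Finset.sum_sub_distrib, ← Finset.mul_sum, sum_bit1]
  have h := hdeg u
  have h' : (C : ℤ) * (Fintype.card V : ℤ) ≤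
      (D : ℤ) * ((Finset.univ.filter (fun v => E u v)).card : ℤ) := by exact_mod_cast h
  have : ∑ _b : V, (C : ℤ) = (Fintype.card V : ℤ) * C := by simp
  rw [this]
  have hm : (0 : ℤ) ≤ m := by positivity
  nlinarith

end

/-- heredity inequality for all dominated root sets -/
def Hered {V : Type*} [Fintype V] (E : V → V → Prop) (C D : ℕ) : Prop :=
  ∀ (R : Finset V) (z : V), (∀ r ∈ R, r = z ∨ E r z) →
    (D : ℤ) * (Set.ncard {b | ∃ r ∈ R, E b r} : ℤ) +
      ((D : ℤ) - C) * (Set.ncard {b | ∀ r ∈ R, E r b} : ℤ) ≤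
      ((D : ℤ) - C) * (Fintype.card V : ℤ)

/-- weighted Turan inequality: no clique of more than `k` vertices inside the support -/
def Motz {V : Type*} [Fintype V] (E : V → V → Prop) [DecidableRel E] (k : ℕ) : Prop :=
  ∀ (w : V → ℕ), (∀ T : Finset V, (∀ a ∈ T, 0 < w a) →
      (∀ a ∈ T, ∀ b ∈ T, a ≠ b → E a b ∨ E b a) → T.card ≤ k) →
    (∑ a, (w a : ℤ)) ^ 2 ≤
      (k : ℤ) * ∑ a, ∑ b, (if E a b ∨ E b a then 0 else (w a : ℤ) * (w b : ℤ))

section

variable {V : Type*} [Fintype V] [DecidableEq V] (E : V → V → Prop) [DecidableRel E]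

omit [Fintype V] [DecidableEq V] in
lemma mem_if_single (p : Prop) [Decidable p] (r x : V) :
    r ∈ (if p then ({x} : Finset V) else ∅) ↔ p ∧ r = x := by
  split_ifs with h <;> simp [h]

omit [DecidableEq V] in
lemma sum_if_ncard (p : V → Prop) [DecidablePred p] (d : ℤ) :
    ∑ b, (if p b then d else 0) = d * (Set.ncard {b | p b} : ℤ) := by
  rw [Set.ncard_eq_toFinset_card', ← Finset.sum_filter]
  simp [mul_comm]

lemma lh_row_nonneg (hE : ∀ u v, E u v → ¬ E v u) (C D : ℕ) (hH : Hered E C D)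
    (x y z a : V) (mask zi : ℕ)
    (hok : okz (rel E x y + 3 * rel E x z + 9 * rel E y z)
      (rel E x a + 3 * rel E y a + 9 * rel E z a) mask zi) :
    0 ≤ ∑ b, lhV C D mask (rel E x b + 3 * rel E y b + 9 * rel E z b) (rel E a b) := by
  obtain ⟨hz4, h0, h1, h2, h3⟩ := hok
  -- the root set
  let R : Finset V := ((if mask % 2 = 1 then {x} else ∅) ∪ (if mask / 2 % 2 = 1 then {y} else ∅)) ∪
    ((if mask / 4 % 2 = 1 then {z} else ∅) ∪ (if mask / 8 % 2 = 1 then {a} else ∅))
  have hR : ∀ r, r ∈ R ↔ (mask % 2 = 1 ∧ r = x) ∨ (mask / 2 % 2 = 1 ∧ r = y) ∨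
      (mask / 4 % 2 = 1 ∧ r = z) ∨ (mask / 8 % 2 = 1 ∧ r = a) := by
    intro r
    simp only [R, Finset.mem_union, mem_if_single, or_assoc]
  have r01 := rel_lt E x y
  have r02 := rel_lt E x z
  have r12 := rel_lt E y z
  have r0a := rel_lt E x a
  have r1a := rel_lt E y a
  have r2a := rel_lt E z a
  -- the dominating vertex
  let Z : V := if zi = 0 then x else if zi = 1 then y else if zi = 2 then z else a
  have e1 : ∀ u v : V, rel E u v = 1 → E u v := fun u v h => (rel_eq_one E).1 h
  have e2 : ∀ u v : V, inv (rel E u v) = 1 → E v u := by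
    intro u v h
    rw [← rel_inv E hE] at h
    exact e1 _ _ h
  have hdom : ∀ r ∈ R, r = Z ∨ E r Z := by
    intro r hr
    rw [hR] at hr
    have hz : zi = 0 ∨ zi = 1 ∨ zi = 2 ∨ zi = 3 := by omega
    rcases hr with ⟨hm, rfl⟩ | ⟨hm, rfl⟩ | ⟨hm, rfl⟩ | ⟨hm, rfl⟩
    · have h := h0 hm
      rcases hz with rfl | rfl | rfl | rfl
      · left; simp [Z]
      · right
        rcases h with h | h
        · omega
        · simp only [rc] at h
          simp [dig0, r01] at h
          simpa [Z] using e1 _ _ h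
      · right
        rcases h with h | h
        · omega
        · simp only [rc] at h
          simp [dig1, r01, r02] at h
          simpa [Z] using e1 _ _ h
      · right
        rcases h with h | h
        · omega
        · simp only [rc] at h
          simp [dig0, r0a] at h
          simpa [Z] using e1 _ _ h
    · have h := h1 hm
      rcases hz with rfl | rfl | rfl | rfl
      · right
        rcases h with h | h
        · omega
        · simp only [rc] at h
          simp [dig0, r01] at h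
          simpa [Z] using e2 _ _ h
      · left; simp [Z]
      · right
        rcases h with h | h
        · omega
        · simp only [rc] at h
          simp [dig2, r01, r02] at h
          simpa [Z] using e1 _ _ h
      · right
        rcases h with h | h
        · omega
        · simp only [rc] at h
          simp [dig1, r0a, r1a] at h
          simpa [Z] using e1 _ _ h
    · have h := h2 hm
      rcases hz with rfl | rfl | rfl | rfl
      · right
        rcases h with h | h
        · omega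
        · simp only [rc] at h
          simp [dig1, r01, r02] at h
          simpa [Z] using e2 _ _ h
      · right
        rcases h with h | h
        · omega
        · simp only [rc] at h
          simp [dig2, r01, r02] at h
          simpa [Z] using e2 _ _ h
      · left; simp [Z]
      · right
        rcases h with h | h
        · omega
        · simp only [rc] at h
          simp [dig2, r0a, r1a] at h
          simpa [Z] using e1 _ _ h
    · have h := h3 hm
      rcases hz with rfl | rfl | rfl | rfl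
      · right
        rcases h with h | h
        · omega
        · simp only [rc] at h
          simp [dig0, r0a] at h
          simpa [Z] using e2 _ _ h
      · right
        rcases h with h | h
        · omega
        · simp only [rc] at h
          simp [dig1, r0a, r1a] at h
          simpa [Z] using e2 _ _ h
      · right
        rcases h with h | h
        · omega
        · simp only [rc] at h
          simp [dig2, r0a, r1a] at h
          simpa [Z] using e2 _ _ h
      · left; simp [Z]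
  have key := hH R Z hdom
  -- rewrite the sum
  have hN : ∀ b, inN mask (rel E x b + 3 * rel E y b + 9 * rel E z b) (rel E a b) ↔
      ∃ r ∈ R, E b r := by
    intro b
    unfold inN
    rw [dig0 _ _ _ (rel_lt E x b), dig1 _ _ _ (rel_lt E x b) (rel_lt E y b),
      dig2 _ _ _ (rel_lt E x b) (rel_lt E y b)]
    simp only [rel_eq_two E hE]
    constructor
    · rintro (⟨h, h'⟩ | ⟨h, h'⟩ | ⟨h, h'⟩ | ⟨h, h'⟩)
      · exact ⟨x, (hR x).2 (Or.inl ⟨h, rfl⟩), h'⟩
      · exact ⟨y, (hR y).2 (Or.inr (Or.inl ⟨h, rfl⟩)), h'⟩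
      · exact ⟨z, (hR z).2 (Or.inr (Or.inr (Or.inl ⟨h, rfl⟩))), h'⟩
      · exact ⟨a, (hR a).2 (Or.inr (Or.inr (Or.inr ⟨h, rfl⟩))), h'⟩
    · rintro ⟨r, hr, hb⟩
      rw [hR] at hr
      rcases hr with ⟨hm, rfl⟩ | ⟨hm, rfl⟩ | ⟨hm, rfl⟩ | ⟨hm, rfl⟩
      · exact Or.inl ⟨hm, hb⟩
      · exact Or.inr (Or.inl ⟨hm, hb⟩)
      · exact Or.inr (Or.inr (Or.inl ⟨hm, hb⟩))
      · exact Or.inr (Or.inr (Or.inr ⟨hm, hb⟩))
  have hS : ∀ b, inS mask (rel E x b + 3 * rel E y b + 9 * rel E z b) (rel E a b) ↔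
      ∀ r ∈ R, E r b := by
    intro b
    unfold inS
    rw [dig0 _ _ _ (rel_lt E x b), dig1 _ _ _ (rel_lt E x b) (rel_lt E y b),
      dig2 _ _ _ (rel_lt E x b) (rel_lt E y b)]
    simp only [rel_eq_one E]
    constructor
    · rintro ⟨g0, g1, g2, g3⟩ r hr
      rw [hR] at hr
      rcases hr with ⟨hm, rfl⟩ | ⟨hm, rfl⟩ | ⟨hm, rfl⟩ | ⟨hm, rfl⟩
      · exact g0 hm
      · exact g1 hm
      · exact g2 hm
      · exact g3 hm
    · intro h
      refine ⟨fun hm => h x ((hR x).2 (Or.inl ⟨hm, rfl⟩)),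
        fun hm => h y ((hR y).2 (Or.inr (Or.inl ⟨hm, rfl⟩))),
        fun hm => h z ((hR z).2 (Or.inr (Or.inr (Or.inl ⟨hm, rfl⟩)))),
        fun hm => h a ((hR a).2 (Or.inr (Or.inr (Or.inr ⟨hm, rfl⟩))))⟩
  have hsum : ∑ b, lhV C D mask (rel E x b + 3 * rel E y b + 9 * rel E z b) (rel E a b) =
      ((D : ℤ) - C) * (Fintype.card V : ℤ) -
      (D : ℤ) * (Set.ncard {b | ∃ r ∈ R, E b r} : ℤ) -
      ((D : ℤ) - C) * (Set.ncard {b | ∀ r ∈ R, E r b} : ℤ) := by
    unfold lhV
    rw [Finset.sum_sub_distrib, Finset.sum_sub_distrib]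
    rw [sum_if_ncard (fun b => inN mask (rel E x b + 3 * rel E y b + 9 * rel E z b) (rel E a b)),
      sum_if_ncard (fun b => inS mask (rel E x b + 3 * rel E y b + 9 * rel E z b) (rel E a b))]
    simp only [hN, hS]
    simp
    ring
  rw [hsum]
  linarith

lemma tu_row_nonneg (k : ℕ) (hM : Motz E k)
    (hclique : ∀ T : Finset V, (∀ a ∈ T, ∀ b ∈ T, a ≠ b → E a b ∨ E b a) → T.card ≤ k + 3)
    (hE : ∀ u v, E u v → ¬ E v u)
    (x y z : V) (w : ℕ → ℕ)
    (ht : rel E x y ≠ 0 ∧ rel E x z ≠ 0 ∧ rel E y z ≠ 0)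
    (hw : ∀ f, 0 < w f → f % 3 ≠ 0 ∧ f / 3 % 3 ≠ 0 ∧ f / 9 ≠ 0) :
    0 ≤ ∑ a, ∑ b, tuV k w (rel E x a + 3 * rel E y a + 9 * rel E z a)
      (rel E x b + 3 * rel E y b + 9 * rel E z b) (rel E a b) := by
  classical
  let w' : V → ℕ := fun a => w (rel E x a + 3 * rel E y a + 9 * rel E z a)
  have hne : ∀ u v : V, rel E u v ≠ 0 → (E u v ∨ E v u) ∧ u ≠ v := by
    intro u v h
    have h1 : E u v ∨ E v u := by
      by_contra hc
      push Not at hc
      exact h ((rel_eq_zero E).2 hc)
    refine ⟨h1, ?_⟩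
    rintro rfl
    rcases h1 with h1 | h1 <;> exact hE _ _ h1 h1
  have adj : ∀ a, 0 < w' a → ((E x a ∨ E a x) ∧ x ≠ a) ∧ ((E y a ∨ E a y) ∧ y ≠ a) ∧
      ((E z a ∨ E a z) ∧ z ≠ a) := by
    intro a ha
    have := hw _ ha
    rw [dig0 _ _ _ (rel_lt E x a), dig1 _ _ _ (rel_lt E x a) (rel_lt E y a),
      dig2 _ _ _ (rel_lt E x a) (rel_lt E y a)] at this
    exact ⟨hne _ _ this.1, hne _ _ this.2.1, hne _ _ this.2.2⟩
  have hxy := hne _ _ ht.1
  have hxz := hne _ _ ht.2.1
  have hyz := hne _ _ ht.2.2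
  have key := hM w' (by
    intro T hT hTT
    -- add the three roots
    have hzT : z ∉ T := fun h => (adj z (hT z h)).2.2.2 rfl
    have hyT : y ∉ insert z T := by
      intro h
      rcases Finset.mem_insert.1 h with h | h
      · exact hyz.2 h
      · exact (adj y (hT y h)).2.1.2 rfl
    have hxT : x ∉ insert y (insert z T) := by
      intro h
      rcases Finset.mem_insert.1 h with h | h
      · exact hxy.2 h
      rcases Finset.mem_insert.1 h with h | h
      · exact hxz.2 h
      · exact (adj x (hT x h)).1.2 rfl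
    have hc := hclique (insert x (insert y (insert z T))) (by
      intro a ha b hb hab
      simp only [Finset.mem_insert] at ha hb
      rcases ha with rfl | rfl | rfl | ha <;> rcases hb with rfl | rfl | rfl | hb
      · exact absurd rfl hab
      · exact hxy.1
      · exact hxz.1
      · exact (adj b (hT b hb)).1.1
      · exact hxy.1.symm
      · exact absurd rfl hab
      · exact hyz.1
      · exact (adj b (hT b hb)).2.1.1
      · exact hxz.1.symm
      · exact hyz.1.symm
      · exact absurd rfl hab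
      · exact (adj b (hT b hb)).2.2.1
      · exact (adj a (hT a ha)).1.1.symm
      · exact (adj a (hT a ha)).2.1.1.symm
      · exact (adj a (hT a ha)).2.2.1.symm
      · exact hTT a ha b hb hab)
    rw [Finset.card_insert_of_notMem hxT, Finset.card_insert_of_notMem hyT,
      Finset.card_insert_of_notMem hzT] at hc
    omega)
  have hsum : ∑ a, ∑ b, tuV k w (rel E x a + 3 * rel E y a + 9 * rel E z a)
      (rel E x b + 3 * rel E y b + 9 * rel E z b) (rel E a b) =
      (k : ℤ) * ∑ a, ∑ b, (if E a b ∨ E b a then 0 else (w' a : ℤ) * (w' b : ℤ)) -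
        (∑ a, (w' a : ℤ)) ^ 2 := by
    rw [sq, Finset.sum_mul_sum, Finset.mul_sum, ← Finset.sum_sub_distrib]
    refine Finset.sum_congr rfl (fun a _ => ?_)
    rw [Finset.mul_sum, ← Finset.sum_sub_distrib]
    refine Finset.sum_congr rfl (fun b _ => ?_)
    unfold tuV
    by_cases h : E a b ∨ E b a
    · have h0 : rel E a b ≠ 0 := by
        intro h0
        rw [rel_eq_zero] at h0
        rcases h with h | h
        · exact h0.1 h
        · exact h0.2 h
      rw [if_neg h0, if_pos h]
      simp only [w']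
      ring
    · have h0 : rel E a b = 0 := by
        rw [rel_eq_zero]
        push Not at h
        exact h
      rw [if_pos h0, if_neg h]
      simp only [w']
      ring
  rw [hsum]
  linarith

/-- THE ROOT SUM OF THE CERTIFICATE IS NONNEGATIVE. -/
theorem pos (hE : ∀ u v, E u v → ¬ E v u) (C D k : ℕ)
    (hdeg : ∀ u : V, C * Fintype.card V ≤ D * (Finset.univ.filter (fun v => E u v)).card)
    (x y z : V) (L : List (ℕ → ℤ)) (m : ℕ → ℕ → ℕ) (lh : ℕ → List (ℕ × ℕ × ℕ))
    (tu : List (ℕ × (ℕ → ℕ)))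
    (hlh : ∀ a : V, ∀ q ∈ lh (rel E x a + 3 * rel E y a + 9 * rel E z a), Hered E C D ∧
      okz (rel E x y + 3 * rel E x z + 9 * rel E y z)
        (rel E x a + 3 * rel E y a + 9 * rel E z a) q.1 q.2.1)
    (htu : ∀ q ∈ tu, Motz E k ∧
      (∀ T : Finset V, (∀ a ∈ T, ∀ b ∈ T, a ≠ b → E a b ∨ E b a) → T.card ≤ k + 3) ∧
      (rel E x y ≠ 0 ∧ rel E x z ≠ 0 ∧ rel E y z ≠ 0) ∧
      ∀ f, 0 < q.2 f → f % 3 ≠ 0 ∧ f / 3 % 3 ≠ 0 ∧ f / 9 ≠ 0)
    (W : ℕ → ℕ → ℕ → ℤ)
    (hW : ∀ a b : V, Wval C D k L m lh tu (rel E x a + 3 * rel E y a + 9 * rel E z a)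
      (rel E x b + 3 * rel E y b + 9 * rel E z b) (rel E a b) ≤
      W (rel E x a + 3 * rel E y a + 9 * rel E z a)
      (rel E x b + 3 * rel E y b + 9 * rel E z b) (rel E a b)) :
    0 ≤ ∑ a : V, ∑ b : V, W (rel E x a + 3 * rel E y a + 9 * rel E z a)
      (rel E x b + 3 * rel E y b + 9 * rel E z b) (rel E a b) := by
  classical
  refine le_trans ?_ (Finset.sum_le_sum fun a _ => Finset.sum_le_sum fun b _ => hW a b)
  unfold Wval
  simp only [Finset.sum_add_distrib]
  have h1 := sq_nonneg' L (fun a : V => rel E x a + 3 * rel E y a + 9 * rel E z a)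
  have h2 : 0 ≤ ∑ a : V, ∑ b : V, degV C D (m (rel E x a + 3 * rel E y a + 9 * rel E z a))
      (rel E x b + 3 * rel E y b + 9 * rel E z b) (rel E a b) := by
    refine Finset.sum_nonneg (fun a _ => ?_)
    unfold degV
    have hd : ∀ b, (rel E x b + 3 * rel E y b + 9 * rel E z b) % 3 = rel E x b ∧
        (rel E x b + 3 * rel E y b + 9 * rel E z b) / 3 % 3 = rel E y b ∧
        (rel E x b + 3 * rel E y b + 9 * rel E z b) / 9 = rel E z b := fun b =>
      ⟨dig0 _ _ _ (rel_lt E x b), dig1 _ _ _ (rel_lt E x b) (rel_lt E y b),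
        dig2 _ _ _ (rel_lt E x b) (rel_lt E y b)⟩
    simp only [fun b => (hd b).1, fun b => (hd b).2.1, fun b => (hd b).2.2]
    simp only [Finset.sum_add_distrib]
    have a0 := deg_row_nonneg E C D hdeg (m (rel E x a + 3 * rel E y a + 9 * rel E z a) 0) x
    have a1 := deg_row_nonneg E C D hdeg (m (rel E x a + 3 * rel E y a + 9 * rel E z a) 1) y
    have a2 := deg_row_nonneg E C D hdeg (m (rel E x a + 3 * rel E y a + 9 * rel E z a) 2) z
    have a3 := deg_row_nonneg E C D hdeg (m (rel E x a + 3 * rel E y a + 9 * rel E z a) 3) a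
    linarith
  have h3 : 0 ≤ ∑ a : V, ∑ b : V, ((lh (rel E x a + 3 * rel E y a + 9 * rel E z a)).map
      (fun q => (q.2.2 : ℤ) * lhV C D q.1 (rel E x b + 3 * rel E y b + 9 * rel E z b)
        (rel E a b))).sum := by
    refine Finset.sum_nonneg (fun a _ => ?_)
    have hl := hlh a
    generalize lh (rel E x a + 3 * rel E y a + 9 * rel E z a) = l at hl
    induction l with
    | nil => simp
    | cons q l ih =>
      simp only [List.map_cons, List.sum_cons, Finset.sum_add_distrib]
      have g1 := hl q (by simp)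
      have g2 := ih (fun q hq => hl q (by simp [hq]))
      have g3 := lh_row_nonneg E hE C D g1.1 x y z a q.1 q.2.1 g1.2
      rw [← Finset.mul_sum]
      have : (0 : ℤ) ≤ q.2.2 := by positivity
      have := mul_nonneg this g3
      linarith
  have h4 : 0 ≤ ∑ a : V, ∑ b : V, (tu.map (fun q => (q.1 : ℤ) *
      tuV k q.2 (rel E x a + 3 * rel E y a + 9 * rel E z a)
        (rel E x b + 3 * rel E y b + 9 * rel E z b) (rel E a b))).sum := by
    refine sum_list_nonneg tu (fun q a b => (q.1 : ℤ) *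
      tuV k q.2 (rel E x a + 3 * rel E y a + 9 * rel E z a)
        (rel E x b + 3 * rel E y b + 9 * rel E z b) (rel E a b)) (fun q hq => ?_)
    obtain ⟨g1, g2, g3, g4⟩ := htu q hq
    have g := tu_row_nonneg E k g1 g2 hE x y z q.2 g3 g4
    simp only [← Finset.mul_sum]
    have : (0 : ℤ) ≤ q.1 := by positivity
    exact mul_nonneg this g
  linarith

end

end Pool.Agent.CH
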