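import Mathlib

/-!
A clique of a digraph without directed cycles of length at most three is a transitive tournament.
-/

set_option autoImplicit false

namespace Pool.Agent.CH

theorem clique_sorted {V : Type*} [DecidableEq V] (E : V → V → Prop) [DecidableRel E]
    (hE : ∀ u v, E u v → ¬ E v u) (h3 : ∀ u v w, E u v → E v w → ¬ E w u) :
    ∀ (m : ℕ) (T : Finset V), T.card = m →
      (∀ a ∈ T, ∀ b ∈ T, a ≠ b → E a b ∨ E b a) →
      ∃ f : Fin m → V, (∀ i, f i ∈ T) ∧ ∀ i j, i < j → E (f i) (f j) := by
  intro m
  induction m with
  | zero =>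
    intro T _ _
    exact ⟨fun i => i.elim0, fun i => i.elim0, fun i => i.elim0⟩
  | succ m ih =>
    intro T hT hc
    have hne : T.Nonempty := by
      rw [← Finset.card_pos, hT]; omega
    obtain ⟨s, hs, hmax⟩ := Finset.exists_max_image T (fun a => (T.filter (fun b => E a b)).card) hne
    have hsrc : ∀ t ∈ T, t ≠ s → E s t := by
      intro t ht hts
      rcases hc s hs t ht (Ne.symm hts) with h | h
      · exact h
      · exfalso
        have hsub : insert s (T.filter (fun b => E s b)) ⊆ T.filter (fun b => E t b) := by
          intro u hu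
          rcases Finset.mem_insert.1 hu with rfl | hu
          · exact Finset.mem_filter.2 ⟨hs, h⟩
          · obtain ⟨hu1, hu2⟩ := Finset.mem_filter.1 hu
            refine Finset.mem_filter.2 ⟨hu1, ?_⟩
            have htu : t ≠ u := by
              rintro rfl
              exact hE _ _ h hu2
            rcases hc t ht u hu1 htu with h' | h'
            · exact h'
            · exact absurd h' (h3 t s u h hu2)
        have h1 := Finset.card_le_card hsub
        have h2 : s ∉ T.filter (fun b => E s b) := by
          intro hh
          have := (Finset.mem_filter.1 hh).2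
          exact hE _ _ this this
        rw [Finset.card_insert_of_notMem h2] at h1
        have := hmax t ht
        omega
    obtain ⟨f, hf1, hf2⟩ := ih (T.erase s) (by rw [Finset.card_erase_of_mem hs, hT]; rfl)
      (fun a ha b hb hab => hc a (Finset.mem_of_mem_erase ha) b (Finset.mem_of_mem_erase hb) hab)
    refine ⟨Fin.cons s f, ?_, ?_⟩
    · intro i
      refine Fin.cases ?_ (fun j => ?_) i
      · simpa using hs
      · simpa using Finset.mem_of_mem_erase (hf1 j)
    · intro i j
      refine Fin.cases ?_ (fun i' => ?_) i
      · refine Fin.cases ?_ (fun j' => ?_) j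
        · intro h; exact absurd h (lt_irrefl _)
        · intro _
          simpa using hsrc (f j') (Finset.mem_of_mem_erase (hf1 j'))
            (Finset.ne_of_mem_erase (hf1 j'))
      · refine Fin.cases ?_ (fun j' => ?_) j
        · intro h; exact absurd h (by simp)
        · intro h
          simpa using hf2 i' j' (by simpa using h)

/-- a large clique contains a transitive tournament of any smaller order -/
theorem large_clique {V : Type*} [DecidableEq V] (E : V → V → Prop) [DecidableRel E]
    (hE : ∀ u v, E u v → ¬ E v u) (h3 : ∀ u v w, E u v → E v w → ¬ E w u) (m : ℕ)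
    (T : Finset V) (hT : m ≤ T.card)
    (hc : ∀ a ∈ T, ∀ b ∈ T, a ≠ b → E a b ∨ E b a) :
    ∃ f : Fin m → V, ∀ i j, i < j → E (f i) (f j) := by
  obtain ⟨T', hT'1, hT'2⟩ := Finset.exists_subset_card_eq hT
  obtain ⟨f, _, hf⟩ := clique_sorted E hE h3 m T' hT'2
    (fun a ha b hb hab => hc a (hT'1 ha) b (hT'1 hb) hab)
  exact ⟨f, hf⟩

end Pool.Agent.CH
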